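import Mathlib

/-!
Project PX (MP_b8862a_ag), block PX-C: counting tuples `b` of positive integers with `∏ b_l ^ (g_l) ≤ Y`.
-/

set_option linter.unusedSectionVars false

open Finset

namespace PX

/-- Rankin's trick for tuples. -/
theorem rankin94 {m : ℕ} (g : Fin m → ℝ) (σ : ℝ) (hσ : 0 < σ) (Y : ℝ) (hY : 0 ≤ Y) (S : Finset (Fin m → ℕ))
    (hS : ∀ b ∈ S, (∀ l, 1 ≤ b l) ∧ ∏ l, (b l : ℝ) ^ (g l) ≤ Y) (B : ℕ) (hB : ∀ b ∈ S, ∀ l, b l ≤ B) :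
    (S.card : ℝ) ≤ Y ^ σ * ∏ l, ∑ k ∈ Finset.Icc 1 B, (k : ℝ) ^ (-(σ * g l)) := by
  classical
  have h1 : ∀ b ∈ S, (1 : ℝ) ≤ Y ^ σ * ∏ l, (b l : ℝ) ^ (-(σ * g l)) := by
    intro b hb
    obtain ⟨hb1, hb2⟩ := hS b hb
    have hpos : ∀ l, (0 : ℝ) < b l := fun l => by
      have := hb1 l
      exact_mod_cast this
    have hP : (0 : ℝ) < ∏ l, (b l : ℝ) ^ (g l) := Finset.prod_pos fun l _ => Real.rpow_pos_of_pos (hpos l) _
    have h2 : (∏ l, (b l : ℝ) ^ (g l)) ^ σ ≤ Y ^ σ := Real.rpow_le_rpow hP.le hb2 hσ.le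
    have h3 : (∏ l, (b l : ℝ) ^ (g l)) ^ σ = ∏ l, (b l : ℝ) ^ (σ * g l) := by
      rw [← Real.finsetProd_rpow _ _ (fun l _ => (Real.rpow_pos_of_pos (hpos l) _).le)]
      refine Finset.prod_congr rfl fun l _ => ?_
      rw [← Real.rpow_mul (hpos l).le, mul_comm]
    have h4 : (∏ l, (b l : ℝ) ^ (σ * g l)) * ∏ l, (b l : ℝ) ^ (-(σ * g l)) = 1 := by
      rw [← Finset.prod_mul_distrib]
      refine Finset.prod_eq_one fun l _ => ?_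
      rw [← Real.rpow_add (hpos l), add_neg_cancel, Real.rpow_zero]
    have h5 : (0 : ℝ) ≤ ∏ l, (b l : ℝ) ^ (-(σ * g l)) := Finset.prod_nonneg fun l _ => (Real.rpow_pos_of_pos (hpos l) _).le
    rw [← h4, ← h3]
    exact mul_le_mul_of_nonneg_right h2 h5
  have h2 : (S.card : ℝ) ≤ ∑ b ∈ S, Y ^ σ * ∏ l, (b l : ℝ) ^ (-(σ * g l)) := by
    have := Finset.sum_le_sum h1
    simpa using this
  refine h2.trans ?_
  rw [← Finset.mul_sum, Finset.prod_univ_sum]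
  refine mul_le_mul_of_nonneg_left ?_ (Real.rpow_nonneg hY _)
  refine Finset.sum_le_sum_of_subset_of_nonneg ?_ ?_
  · intro b hb
    rw [Fintype.mem_piFinset]
    intro l
    rw [Finset.mem_Icc]
    exact ⟨(hS b hb).1 l, hB b hb l⟩
  · intro b _ _
    exact Finset.prod_nonneg fun l _ => Real.rpow_nonneg (Nat.cast_nonneg _) _

/-- the sum over one entry -/
theorem sum_entry94 {s₀ : ℝ} (h0 : 1 < s₀) : ∃ A : ℝ, 0 ≤ A ∧ ∀ (s : ℝ) (B : ℕ), s₀ ≤ s →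
    ∑ k ∈ Finset.Icc 1 B, (k : ℝ) ^ (-s) ≤ 1 + A * (2 : ℝ) ^ (-s) := by
  have hsum : Summable (fun k : ℕ => (k : ℝ) ^ (-s₀)) := Real.summable_nat_rpow.2 (by linarith)
  refine ⟨(∑' k : ℕ, (k : ℝ) ^ (-s₀)) * (2 : ℝ) ^ s₀, ?_, ?_⟩
  · exact mul_nonneg (tsum_nonneg fun k => Real.rpow_nonneg (Nat.cast_nonneg _) _) (by positivity)
  · intro s B hs
    have h1 : ∀ k ∈ Finset.Icc 1 B, (k : ℝ) ^ (-s) ≤ (if k = 1 then 1 else 0) + (k : ℝ) ^ (-s₀) * (2 : ℝ) ^ (-(s - s₀)) := by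
      intro k hk
      rw [Finset.mem_Icc] at hk
      have hkpos : (0 : ℝ) < k := by
        have := hk.1
        exact_mod_cast this
      by_cases h : k = 1
      · subst h
        rw [if_pos rfl]
        simp only [Nat.cast_one, Real.one_rpow]
        have : (0 : ℝ) ≤ 1 * (2 : ℝ) ^ (-(s - s₀)) := by positivity
        linarith
      · rw [if_neg h, zero_add]
        have h2 : (2 : ℝ) ≤ k := by
          have : 2 ≤ k := by omega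
          exact_mod_cast this
        have h3 : (k : ℝ) ^ (-s) = (k : ℝ) ^ (-s₀) * (k : ℝ) ^ (-(s - s₀)) := by
          rw [← Real.rpow_add hkpos]
          congr 1
          ring
        rw [h3]
        refine mul_le_mul_of_nonneg_left ?_ (Real.rpow_nonneg hkpos.le _)
        rw [Real.rpow_neg hkpos.le, Real.rpow_neg (by norm_num : (0 : ℝ) ≤ 2)]
        refine inv_anti₀ (by positivity) ?_
        exact Real.rpow_le_rpow (by norm_num) h2 (by linarith)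
    have h2 := Finset.sum_le_sum h1
    rw [Finset.sum_add_distrib, ← Finset.sum_mul] at h2
    have h3 : ∑ k ∈ Finset.Icc 1 B, (if k = 1 then (1 : ℝ) else 0) ≤ 1 := by
      rw [Finset.sum_ite_eq']
      split_ifs <;> norm_num
    have h4 : ∑ k ∈ Finset.Icc 1 B, (k : ℝ) ^ (-s₀) ≤ ∑' k : ℕ, (k : ℝ) ^ (-s₀) :=
      hsum.sum_le_tsum _ fun k _ => Real.rpow_nonneg (Nat.cast_nonneg _) _
    have h5 : (2 : ℝ) ^ (-(s - s₀)) = (2 : ℝ) ^ s₀ * (2 : ℝ) ^ (-s) := by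
      rw [← Real.rpow_add (by norm_num)]
      congr 1
      ring
    have h6 : (0 : ℝ) ≤ (2 : ℝ) ^ (-(s - s₀)) := by positivity
    have h7 := mul_le_mul_of_nonneg_right h4 h6
    rw [h5] at h7 h2
    calc _ ≤ _ := h2
      _ ≤ 1 + (∑' k : ℕ, (k : ℝ) ^ (-s₀)) * ((2 : ℝ) ^ s₀ * (2 : ℝ) ^ (-s)) := add_le_add h3 h7
      _ = _ := by ring

/-- **Counting tuples.** -/
theorem count_gen94 {σ s₀ δ : ℝ} (κ : ℝ) (hσ : 0 < σ) (hs : 1 < s₀) (hδ : 0 < δ) : ∃ C : ℝ, 0 < C ∧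
    ∀ (m : ℕ) (g : Fin m → ℝ), (∀ l, s₀ ≤ σ * g l) →
    (∀ l : Fin m, δ * min ((l : ℕ) + 1 : ℝ) ((m : ℝ) - (l : ℕ)) ≤ σ * g l + κ) → ∀ (Y : ℝ), 0 ≤ Y →
    ∀ S : Finset (Fin m → ℕ), (∀ b ∈ S, (∀ l, 1 ≤ b l) ∧ ∏ l, (b l : ℝ) ^ (g l) ≤ Y) → (S.card : ℝ) ≤ C * Y ^ σ := by
  classical
  obtain ⟨A, hA, hsum⟩ := sum_entry94 hs
  have hr0 : (0 : ℝ) < (2 : ℝ) ^ (-δ) := by positivity
  have hr1 : (2 : ℝ) ^ (-δ) < 1 := Real.rpow_lt_one_of_one_lt_of_neg (by norm_num) (by linarith)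
  have hgeo : Summable (fun d : ℕ => ((2 : ℝ) ^ (-δ)) ^ d) := summable_geometric_of_lt_one hr0.le hr1
  obtain ⟨G, hG⟩ : ∃ G : ℝ, G = ∑' d : ℕ, ((2 : ℝ) ^ (-δ)) ^ d := ⟨_, rfl⟩
  refine ⟨Real.exp (A * ((2 : ℝ) ^ κ * (2 * G))), Real.exp_pos _, ?_⟩
  intro m g hg hd Y hY S hS
  obtain ⟨B, hB⟩ : ∃ B : ℕ, ∀ b ∈ S, ∀ l, b l ≤ B := by
    refine ⟨S.sup fun b => Finset.univ.sup b, fun b hb l => ?_⟩
    exact (Finset.le_sup (f := b) (Finset.mem_univ l)).trans (Finset.le_sup (f := fun b => Finset.univ.sup b) hb)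
  refine (rankin94 g σ hσ Y hY S hS B hB).trans ?_
  rw [mul_comm]
  refine mul_le_mul_of_nonneg_right ?_ (Real.rpow_nonneg hY _)
  have h1 : ∏ l, ∑ k ∈ Finset.Icc 1 B, (k : ℝ) ^ (-(σ * g l)) ≤ ∏ l : Fin m, Real.exp (A * (2 : ℝ) ^ (-(σ * g l))) := by
    refine Finset.prod_le_prod (fun l _ => Finset.sum_nonneg fun k _ => Real.rpow_nonneg (Nat.cast_nonneg _) _) ?_
    intro l _
    refine (hsum _ B (hg l)).trans ?_
    have := Real.add_one_le_exp (A * (2 : ℝ) ^ (-(σ * g l)))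
    linarith
  refine h1.trans ?_
  rw [← Real.exp_sum, Real.exp_le_exp, ← Finset.mul_sum]
  refine mul_le_mul_of_nonneg_left ?_ hA
  have h2 : ∀ l : Fin m, (2 : ℝ) ^ (-(σ * g l)) ≤
      (2 : ℝ) ^ κ * (((2 : ℝ) ^ (-δ)) ^ ((l : ℕ) + 1) + ((2 : ℝ) ^ (-δ)) ^ (m - (l : ℕ))) := by
    intro l
    have h3 := hd l
    have hpow : ∀ d : ℕ, ((2 : ℝ) ^ (-δ)) ^ d = (2 : ℝ) ^ (-(δ * d)) := by
      intro d
      rw [← Real.rpow_natCast, ← Real.rpow_mul (by norm_num)]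
      congr 1
      ring
    rw [hpow, hpow]
    have hml : ((m - (l : ℕ) : ℕ) : ℝ) = (m : ℝ) - (l : ℕ) := by
      rw [Nat.cast_sub l.2.le]
    rw [hml]
    have hmono : ∀ u : ℝ, δ * u ≤ σ * g l + κ → (2 : ℝ) ^ (-(σ * g l)) ≤ (2 : ℝ) ^ κ * (2 : ℝ) ^ (-(δ * u)) := by
      intro u hu
      rw [← Real.rpow_add (by norm_num)]
      refine Real.rpow_le_rpow_of_exponent_le (by norm_num) ?_
      linarith
    have hk : (0 : ℝ) ≤ (2 : ℝ) ^ κ := by positivity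
    rw [mul_add]
    rcases min_cases ((l : ℕ) + 1 : ℝ) ((m : ℝ) - (l : ℕ)) with ⟨h4, -⟩ | ⟨h4, -⟩
    · rw [h4] at h3
      have h5 := hmono _ h3
      have h6 : (0 : ℝ) ≤ (2 : ℝ) ^ κ * (2 : ℝ) ^ (-(δ * ((m : ℝ) - (l : ℕ)))) := by positivity
      push_cast
      linarith
    · rw [h4] at h3
      have h5 := hmono _ h3
      have h6 : (0 : ℝ) ≤ (2 : ℝ) ^ κ * (2 : ℝ) ^ (-(δ * (((l : ℕ) + 1 : ℕ) : ℝ))) := by positivity
      linarith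
  refine (Finset.sum_le_sum fun l _ => h2 l).trans ?_
  rw [← Finset.mul_sum]
  refine mul_le_mul_of_nonneg_left ?_ (by positivity)
  rw [Finset.sum_add_distrib, two_mul]
  have key : ∀ f : Fin m → ℕ, Function.Injective f → ∑ l, ((2 : ℝ) ^ (-δ)) ^ (f l) ≤ G := by
    intro f hf
    rw [hG, ← Finset.sum_image (f := fun d : ℕ => ((2 : ℝ) ^ (-δ)) ^ d) (s := Finset.univ) (g := f) (fun a _ b _ h => hf h)]
    exact hgeo.sum_le_tsum _ fun d _ => pow_nonneg hr0.le _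
  refine add_le_add (key _ ?_) (key _ ?_)
  · intro a b h
    apply Fin.ext
    simpa using h
  · intro a b h
    apply Fin.ext
    have h1 := a.2
    have h2 := b.2
    simp only at h
    omega

/-- **Counting tuples.** -/
theorem count94 {σ s₀ : ℝ} (hσ : 0 < σ) (hs : 1 < s₀) : ∃ C : ℝ, 0 < C ∧ ∀ (m : ℕ) (g : Fin m → ℝ),
    (∀ l, s₀ ≤ σ * g l) → (∀ l : Fin m, min ((l : ℕ) + 1 : ℝ) ((m : ℝ) - (l : ℕ)) ≤ g l) → ∀ (Y : ℝ), 0 ≤ Y →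
    ∀ S : Finset (Fin m → ℕ), (∀ b ∈ S, (∀ l, 1 ≤ b l) ∧ ∏ l, (b l : ℝ) ^ (g l) ≤ Y) → (S.card : ℝ) ≤ C * Y ^ σ := by
  obtain ⟨C, hC, h⟩ := count_gen94 0 hσ hs hσ
  refine ⟨C, hC, fun m g hg hd => h m g hg fun l => ?_⟩
  have := mul_le_mul_of_nonneg_left (hd l) hσ.le
  linarith

end PX
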