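import Pool.Agent.Helper81.PX.Defs
import Pool.Agent.Helper94.PX.Count
import Pool.Agent.Helper94.PW.Few

/-!
Project PX (MP_b8862a_ag), blocks PX-1, PX-2, PX-7: thin sets, few boxes, counting tuples.
-/

set_option linter.unusedSectionVars false

open PW

namespace PX

private theorem one_le_card {S : Set ℕ} {X : ℕ} : (0 : ℝ) ≤ (cn S X : ℝ) := Nat.cast_nonneg _

private theorem cn_zero94 (S : Set ℕ) : cn S 0 = 0 := by
  unfold cn
  simp

private theorem cn_mono94 {S T : Set ℕ} (h : ∀ n, 0 < n → n ∈ S → n ∈ T) (X : ℕ) : cn S X ≤ cn T X := by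
  classical
  unfold cn
  refine Finset.card_le_card fun n hn => ?_
  rw [Finset.mem_filter, Finset.mem_Icc] at hn ⊢
  exact ⟨hn.1, h n (by omega) hn.2⟩

private theorem cn_eq94 (S : Set ℕ) [DecidablePred (· ∈ S)] (X : ℕ) :
    cn S X = ((Finset.Icc 1 X).filter (· ∈ S)).card := by
  unfold cn
  congr

private theorem cn_union94 (S T : Set ℕ) (X : ℕ) : cn (S ∪ T) X ≤ cn S X + cn T X := by
  classical
  rw [cn_eq94 (S ∪ T), cn_eq94 S, cn_eq94 T]
  refine le_trans (Finset.card_le_card ?_) (Finset.card_union_le _ _)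
  intro n hn
  have hn := Finset.mem_filter.1 hn
  rw [Finset.mem_union, Finset.mem_filter, Finset.mem_filter]
  rcases hn.2 with h | h
  · exact Or.inl ⟨hn.1, h⟩
  · exact Or.inr ⟨hn.1, h⟩

theorem Half.thin {S : Set ℕ} (h : Half S) : Thin S := by
  obtain ⟨C, hC⟩ := h
  intro ε hε
  refine ⟨|C|, fun X => ?_⟩
  rcases Nat.eq_zero_or_pos X with rfl | hX
  · rw [cn_zero94, Nat.cast_zero]
    exact mul_nonneg (abs_nonneg _) (Real.rpow_nonneg (by simp) _)
  · refine (hC X).trans ?_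
    have h1 : (1 : ℝ) ≤ X := by exact_mod_cast hX
    have h2 : (X : ℝ) ^ (1 / 2 : ℝ) ≤ (X : ℝ) ^ (1 / 2 + ε) := Real.rpow_le_rpow_of_exponent_le h1 (by linarith)
    have h3 : (0 : ℝ) ≤ (X : ℝ) ^ (1 / 2 : ℝ) := Real.rpow_nonneg (Nat.cast_nonneg _) _
    exact mul_le_mul (le_abs_self C) h2 h3 (abs_nonneg _)

theorem Thin.mono {S T : Set ℕ} (h : Thin T) (hST : ∀ n, 0 < n → n ∈ S → n ∈ T) : Thin S := by
  intro ε hε
  obtain ⟨C, hC⟩ := h ε hε
  refine ⟨C, fun X => le_trans ?_ (hC X)⟩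
  exact_mod_cast cn_mono94 hST X

theorem Thin.union {S T : Set ℕ} (h : Thin S) (h' : Thin T) : Thin (S ∪ T) := by
  intro ε hε
  obtain ⟨C, hC⟩ := h ε hε
  obtain ⟨C', hC'⟩ := h' ε hε
  refine ⟨C + C', fun X => ?_⟩
  have h1 : (cn (S ∪ T) X : ℝ) ≤ cn S X + cn T X := by exact_mod_cast cn_union94 S T X
  have h2 := hC X
  have h3 := hC' X
  rw [add_mul]
  linarith

theorem Thin.iUnion {ι : Type*} [Fintype ι] (S : ι → Set ℕ) (h : ∀ i, Thin (S i)) : Thin (⋃ i, S i) := by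
  classical
  have key : ∀ s : Finset ι, Thin (⋃ i ∈ s, S i) := by
    intro s
    induction s using Finset.induction_on with
    | empty =>
      intro ε hε
      refine ⟨0, fun X => ?_⟩
      have h0 : cn (⋃ i ∈ (∅ : Finset ι), S i) X = 0 := by
        unfold cn
        rw [Finset.card_eq_zero, Finset.filter_eq_empty_iff]
        intro n _ hn
        simp at hn
      rw [h0]
      simp
    | insert a s ha ih =>
      rw [Finset.set_biUnion_insert]
      exact (h a).union ih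
  have h2 := key Finset.univ
  simpa using h2

private theorem half_of94 {S : Set ℕ} (A : ℕ) (h : ∀ X, cn S X ≤ A * (Nat.sqrt (4 * X) + 1)) : Half S := by
  refine ⟨3 * A, fun X => ?_⟩
  rcases Nat.eq_zero_or_pos X with rfl | hX
  · rw [cn_zero94, Nat.cast_zero]
    exact mul_nonneg (by positivity) (Real.rpow_nonneg (by simp) _)
  · have h1 : (cn S X : ℝ) ≤ A * ((Nat.sqrt (4 * X) : ℝ) + 1) := by exact_mod_cast h X
    have hX1 : (1 : ℝ) ≤ X := by exact_mod_cast hX
    have h2 : (Nat.sqrt (4 * X) : ℝ) ≤ 2 * (X : ℝ) ^ (1 / 2 : ℝ) := by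
      have h3 := Real.nat_sqrt_le_real_sqrt (a := 4 * X)
      refine h3.trans ?_
      push_cast
      rw [Real.sqrt_mul (by norm_num), Real.sqrt_eq_rpow (X : ℝ)]
      have h4 : Real.sqrt 4 = 2 := by
        rw [show (4 : ℝ) = 2 ^ 2 by norm_num]
        exact Real.sqrt_sq (by norm_num)
      rw [h4]
    have h3 : (1 : ℝ) ≤ (X : ℝ) ^ (1 / 2 : ℝ) := Real.one_le_rpow hX1 (by norm_num)
    calc (cn S X : ℝ) ≤ A * ((Nat.sqrt (4 * X) : ℝ) + 1) := h1
      _ ≤ A * (3 * (X : ℝ) ^ (1 / 2 : ℝ)) := by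
        refine mul_le_mul_of_nonneg_left ?_ (Nat.cast_nonneg _)
        linarith
      _ = _ := by ring

theorem fewD_half (K : ℕ) : Half (FewD K) := half_of94 _ (fewD_cn94 K)

theorem fewA_half (K : ℕ) : Half (FewA K) := half_of94 _ (fewA_cn94 K)

theorem count : ∃ C : ℝ, ∀ (m : ℕ) (Y : ℕ) (B : Finset (Fin m → ℕ)),
    (∀ b ∈ B, (∀ i, 1 ≤ b i) ∧ ∏ i, b i ^ gg m i ≤ Y) → (B.card : ℝ) ≤ C * Y := by
  obtain ⟨C, hC, h⟩ := count_gen94 (σ := 1) (s₀ := 2) (δ := 1 / 4) 1 one_pos (by norm_num) (by norm_num)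
  refine ⟨C, fun m Y B hB => ?_⟩
  have h1 := h m (fun l => (gg m l : ℝ)) ?_ ?_ (Y : ℝ) (Nat.cast_nonneg _) B ?_
  · rwa [Real.rpow_one] at h1
  · intro l
    rw [one_mul]
    have h2 : 2 ≤ gg m l := le_max_left _ _
    exact_mod_cast h2
  · intro l
    have h2 : min ((l : ℕ) + 1) (m - 1 - l) / 4 ≤ gg m l := le_max_right _ _
    have h3 : min ((l : ℕ) + 1) (m - l) ≤ 4 * gg m l + 4 := by
      have h4 : min ((l : ℕ) + 1) (m - 1 - l) < 4 * (min ((l : ℕ) + 1) (m - 1 - l) / 4) + 4 := by omega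
      omega
    have h5 : min ((l : ℕ) + 1 : ℝ) ((m : ℝ) - (l : ℕ)) = ((min ((l : ℕ) + 1) (m - l) : ℕ) : ℝ) := by
      rw [Nat.cast_min, Nat.cast_sub l.2.le]
      push_cast
      rfl
    rw [h5]
    have h6 : ((min ((l : ℕ) + 1) (m - l) : ℕ) : ℝ) ≤ 4 * (gg m l : ℝ) + 4 := by exact_mod_cast h3
    linarith
  · intro b hb
    refine ⟨(hB b hb).1, ?_⟩
    have h2 : ((∏ i, b i ^ gg m i : ℕ) : ℝ) ≤ Y := by exact_mod_cast (hB b hb).2
    push_cast at h2
    simpa only [Real.rpow_natCast] using h2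

/-- The perfect powers. -/
theorem pow_thin : Thin {n | ∃ a k : ℕ, 2 ≤ k ∧ n = a ^ k} := by
  intro ε hε
  have hcn : ∀ X : ℕ, 1 ≤ X → cn {n | ∃ a k : ℕ, 2 ≤ k ∧ n = a ^ k} X ≤ (Nat.sqrt X + 1) * (Nat.log 2 X + 3) := by
    intro X hX
    have h0 : ((Finset.range (Nat.sqrt X + 1)) ×ˢ (Finset.range (Nat.log 2 X + 3))).card =
        (Nat.sqrt X + 1) * (Nat.log 2 X + 3) := by
      rw [Finset.card_product, Finset.card_range, Finset.card_range]
    rw [← h0]
    refine cn_le94 _ (fun n t => n = t.1 ^ t.2) ?_ ?_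
    · rintro n ⟨a, k, hk, rfl⟩ h1 h2
      by_cases ha : 2 ≤ a
      · refine ⟨(a, k), ?_, rfl⟩
        rw [Finset.mem_product, Finset.mem_range, Finset.mem_range]
        constructor
        · change a < _
          rw [Nat.lt_succ_iff, Nat.le_sqrt]
          calc a * a = a ^ 2 := by ring
            _ ≤ a ^ k := Nat.pow_le_pow_right (by omega) hk
            _ ≤ X := h2
        · change k < _
          have h3 : 2 ^ k ≤ X := (Nat.pow_le_pow_left ha k).trans h2
          have h4 := Nat.le_log_of_pow_le (by norm_num) h3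
          omega
      · have ha1 : a = 1 := by
          rcases Nat.eq_zero_or_pos a with h | h
          · rw [h, zero_pow (by omega)] at h1
            omega
          · omega
        refine ⟨(1, 2), ?_, by rw [ha1]; simp⟩
        rw [Finset.mem_product, Finset.mem_range, Finset.mem_range]
        constructor
        · change 1 < _
          have : 1 ≤ Nat.sqrt X := by
            rw [Nat.le_sqrt]
            omega
          omega
        · change 2 < _
          omega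
    · rintro n n' t h1 h2
      rw [h1, h2]
  refine ⟨2 * (3 + 1 / (ε * Real.log 2)), fun X => ?_⟩
  have hl2 : 0 < Real.log 2 := Real.log_pos (by norm_num)
  rcases Nat.eq_zero_or_pos X with rfl | hX
  · rw [cn_zero94, Nat.cast_zero]
    exact mul_nonneg (by positivity) (Real.rpow_nonneg (by simp) _)
  · have h1 : (cn {n | ∃ a k : ℕ, 2 ≤ k ∧ n = a ^ k} X : ℝ) ≤ ((Nat.sqrt X : ℝ) + 1) * ((Nat.log 2 X : ℝ) + 3) := by
      exact_mod_cast hcn X hX
    have hX1 : (1 : ℝ) ≤ X := by exact_mod_cast hX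
    have hX0 : (0 : ℝ) < X := by linarith
    have h2 : (Nat.sqrt X : ℝ) ≤ (X : ℝ) ^ (1 / 2 : ℝ) := by
      have h3 := Real.nat_sqrt_le_real_sqrt (a := X)
      rwa [Real.sqrt_eq_rpow] at h3
    have h3 : (1 : ℝ) ≤ (X : ℝ) ^ (1 / 2 : ℝ) := Real.one_le_rpow hX1 (by norm_num)
    have h4 : (1 : ℝ) ≤ (X : ℝ) ^ ε := Real.one_le_rpow hX1 hε.le
    have h5 : (Nat.log 2 X : ℝ) ≤ 1 / (ε * Real.log 2) * (X : ℝ) ^ ε := by
      have h6 : (Nat.log 2 X : ℝ) ≤ Real.logb 2 X := by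
        have := Real.natLog_le_logb X 2
        exact_mod_cast this
      refine h6.trans ?_
      unfold Real.logb
      have h7 := Real.log_le_rpow_div hX0.le hε
      rw [div_le_iff₀ hl2]
      refine h7.trans (le_of_eq ?_)
      field_simp
    calc (cn {n | ∃ a k : ℕ, 2 ≤ k ∧ n = a ^ k} X : ℝ) ≤ ((Nat.sqrt X : ℝ) + 1) * ((Nat.log 2 X : ℝ) + 3) := h1
      _ ≤ (2 * (X : ℝ) ^ (1 / 2 : ℝ)) * ((3 + 1 / (ε * Real.log 2)) * (X : ℝ) ^ ε) := by
        refine mul_le_mul (by linarith) ?_ (by positivity) (by positivity)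
        rw [add_mul]
        linarith
      _ = _ := by
        rw [Real.rpow_add hX0]
        ring

end PX
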