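import Pool.Agent.Helper94.PX.Basic

/-!
Project PX (MP_b8862a_ag), block PX-10: sets with `O(√X)` elements, perfect powers.
-/

set_option linter.unusedSectionVars false

open PW

namespace PX

private theorem cn_zero94' (S : Set ℕ) : cn S 0 = 0 := by
  unfold cn
  simp

private theorem cn_mono94' {S T : Set ℕ} (h : ∀ n, 0 < n → n ∈ S → n ∈ T) (X : ℕ) : cn S X ≤ cn T X := by
  classical
  unfold cn
  refine Finset.card_le_card fun n hn => ?_
  rw [Finset.mem_filter, Finset.mem_Icc] at hn ⊢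
  exact ⟨hn.1, h n (by omega) hn.2⟩

private theorem cn_eq94' (S : Set ℕ) [DecidablePred (· ∈ S)] (X : ℕ) :
    cn S X = ((Finset.Icc 1 X).filter (· ∈ S)).card := by
  unfold cn
  congr

private theorem cn_union94' (S T : Set ℕ) (X : ℕ) : cn (S ∪ T) X ≤ cn S X + cn T X := by
  classical
  rw [cn_eq94' (S ∪ T), cn_eq94' S, cn_eq94' T]
  refine le_trans (Finset.card_le_card ?_) (Finset.card_union_le _ _)
  intro n hn
  have hn := Finset.mem_filter.1 hn
  rw [Finset.mem_union, Finset.mem_filter, Finset.mem_filter]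
  rcases hn.2 with h | h
  · exact Or.inl ⟨hn.1, h⟩
  · exact Or.inr ⟨hn.1, h⟩

theorem Half.mono {S T : Set ℕ} (h : Half T) (hST : ∀ n, 0 < n → n ∈ S → n ∈ T) : Half S := by
  obtain ⟨C, hC⟩ := h
  refine ⟨C, fun X => le_trans ?_ (hC X)⟩
  exact_mod_cast cn_mono94' hST X

theorem Half.union {S T : Set ℕ} (h : Half S) (h' : Half T) : Half (S ∪ T) := by
  obtain ⟨C, hC⟩ := h
  obtain ⟨C', hC'⟩ := h'
  refine ⟨C + C', fun X => ?_⟩
  have h1 : (cn (S ∪ T) X : ℝ) ≤ cn S X + cn T X := by exact_mod_cast cn_union94' S T X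
  have h2 := hC X
  have h3 := hC' X
  rw [add_mul]
  linarith

theorem Half.iUnion {ι : Type*} [Fintype ι] (S : ι → Set ℕ) (h : ∀ i, Half (S i)) : Half (⋃ i, S i) := by
  classical
  have key : ∀ s : Finset ι, Half (⋃ i ∈ s, S i) := by
    intro s
    induction s using Finset.induction_on with
    | empty =>
      refine ⟨0, fun X => ?_⟩
      have h0 : cn (⋃ i ∈ (∅ : Finset ι), S i) X = 0 := by
        unfold cn
        rw [Finset.card_eq_zero, Finset.filter_eq_empty_iff]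
        intro n _ hn
        simp at hn
      rw [h0]
      simp
    | insert a s ha ih =>
      rw [Finset.set_biUnion_insert]
      exact (h a).union ih
  have h2 := key Finset.univ
  simpa using h2

private theorem sq_half94 : Half {n | ∃ a : ℕ, n = a ^ 2} := by
  have hcn : ∀ X : ℕ, cn {n | ∃ a : ℕ, n = a ^ 2} X ≤ Nat.sqrt X + 1 := by
    intro X
    have h0 : (Finset.range (Nat.sqrt X + 1)).card = Nat.sqrt X + 1 := Finset.card_range _
    rw [← h0]
    refine cn_le94 _ (fun n t => n = t ^ 2) ?_ ?_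
    · rintro n ⟨a, rfl⟩ h1 h2
      refine ⟨a, ?_, rfl⟩
      rw [Finset.mem_range, Nat.lt_succ_iff, Nat.le_sqrt]
      calc a * a = a ^ 2 := by ring
        _ ≤ X := h2
    · rintro n n' t h1 h2
      rw [h1, h2]
  refine ⟨2, fun X => ?_⟩
  rcases Nat.eq_zero_or_pos X with rfl | hX
  · rw [cn_zero94', Nat.cast_zero]
    exact mul_nonneg (by positivity) (Real.rpow_nonneg (by simp) _)
  · have h1 : (cn {n | ∃ a : ℕ, n = a ^ 2} X : ℝ) ≤ (Nat.sqrt X : ℝ) + 1 := by exact_mod_cast hcn X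
    have hX1 : (1 : ℝ) ≤ X := by exact_mod_cast hX
    have h2 : (Nat.sqrt X : ℝ) ≤ (X : ℝ) ^ (1 / 2 : ℝ) := by
      have h3 := Real.nat_sqrt_le_real_sqrt (a := X)
      rwa [Real.sqrt_eq_rpow] at h3
    have h3 : (1 : ℝ) ≤ (X : ℝ) ^ (1 / 2 : ℝ) := Real.one_le_rpow hX1 (by norm_num)
    linarith

private theorem cube_half94 : Half {n | ∃ a k : ℕ, 3 ≤ k ∧ n = a ^ k} := by
  have hcn : ∀ X : ℕ, 1 ≤ X → cn {n | ∃ a k : ℕ, 3 ≤ k ∧ n = a ^ k} X ≤
      (⌊(X : ℝ) ^ (1 / 3 : ℝ)⌋₊ + 1) * (Nat.log 2 X + 4) := by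
    intro X hX
    have h0 : ((Finset.range (⌊(X : ℝ) ^ (1 / 3 : ℝ)⌋₊ + 1)) ×ˢ (Finset.range (Nat.log 2 X + 4))).card =
        (⌊(X : ℝ) ^ (1 / 3 : ℝ)⌋₊ + 1) * (Nat.log 2 X + 4) := by
      rw [Finset.card_product, Finset.card_range, Finset.card_range]
    have hroot : ∀ a : ℕ, a ^ 3 ≤ X → a ≤ ⌊(X : ℝ) ^ (1 / 3 : ℝ)⌋₊ := by
      intro a ha
      refine Nat.le_floor ?_
      have h1 : ((a : ℝ) ^ 3) ≤ X := by exact_mod_cast ha
      calc (a : ℝ) = ((a : ℝ) ^ 3) ^ (1 / 3 : ℝ) := by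
            rw [← Real.rpow_natCast, ← Real.rpow_mul (Nat.cast_nonneg _)]
            norm_num
        _ ≤ (X : ℝ) ^ (1 / 3 : ℝ) := Real.rpow_le_rpow (by positivity) h1 (by norm_num)
    rw [← h0]
    refine cn_le94 _ (fun n t => n = t.1 ^ t.2) ?_ ?_
    · rintro n ⟨a, k, hk, rfl⟩ h1 h2
      by_cases ha : 2 ≤ a
      · refine ⟨(a, k), ?_, rfl⟩
        rw [Finset.mem_product, Finset.mem_range, Finset.mem_range]
        constructor
        · change a < _
          rw [Nat.lt_succ_iff]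
          exact hroot a ((Nat.pow_le_pow_right (by omega) hk).trans h2)
        · change k < _
          have h3 : 2 ^ k ≤ X := (Nat.pow_le_pow_left ha k).trans h2
          have h4 := Nat.le_log_of_pow_le (by norm_num) h3
          omega
      · have ha1 : a = 1 := by
          rcases Nat.eq_zero_or_pos a with h | h
          · rw [h, zero_pow (by omega)] at h1
            omega
          · omega
        refine ⟨(1, 3), ?_, by rw [ha1]; simp⟩
        rw [Finset.mem_product, Finset.mem_range, Finset.mem_range]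
        constructor
        · change 1 < _
          have := hroot 1 (by simpa using hX)
          omega
        · change 3 < _
          omega
    · rintro n n' t h1 h2
      rw [h1, h2]
  refine ⟨2 * (4 + 1 / (1 / 6 * Real.log 2)), fun X => ?_⟩
  have hl2 : 0 < Real.log 2 := Real.log_pos (by norm_num)
  rcases Nat.eq_zero_or_pos X with rfl | hX
  · rw [cn_zero94', Nat.cast_zero]
    exact mul_nonneg (by positivity) (Real.rpow_nonneg (by simp) _)
  · have h1 : (cn {n | ∃ a k : ℕ, 3 ≤ k ∧ n = a ^ k} X : ℝ) ≤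
        ((⌊(X : ℝ) ^ (1 / 3 : ℝ)⌋₊ : ℝ) + 1) * ((Nat.log 2 X : ℝ) + 4) := by
      exact_mod_cast hcn X hX
    have hX1 : (1 : ℝ) ≤ X := by exact_mod_cast hX
    have hX0 : (0 : ℝ) < X := by linarith
    have h2 : (⌊(X : ℝ) ^ (1 / 3 : ℝ)⌋₊ : ℝ) ≤ (X : ℝ) ^ (1 / 3 : ℝ) := Nat.floor_le (Real.rpow_nonneg hX0.le _)
    have h3 : (1 : ℝ) ≤ (X : ℝ) ^ (1 / 3 : ℝ) := Real.one_le_rpow hX1 (by norm_num)
    have h4 : (1 : ℝ) ≤ (X : ℝ) ^ (1 / 6 : ℝ) := Real.one_le_rpow hX1 (by norm_num)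
    have h5 : (Nat.log 2 X : ℝ) ≤ 1 / (1 / 6 * Real.log 2) * (X : ℝ) ^ (1 / 6 : ℝ) := by
      have h6 : (Nat.log 2 X : ℝ) ≤ Real.logb 2 X := by
        have := Real.natLog_le_logb X 2
        exact_mod_cast this
      refine h6.trans ?_
      unfold Real.logb
      have h7 := Real.log_le_rpow_div hX0.le (show (0 : ℝ) < 1 / 6 by norm_num)
      rw [div_le_iff₀ hl2]
      refine h7.trans (le_of_eq ?_)
      field_simp
    calc (cn {n | ∃ a k : ℕ, 3 ≤ k ∧ n = a ^ k} X : ℝ) ≤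
        ((⌊(X : ℝ) ^ (1 / 3 : ℝ)⌋₊ : ℝ) + 1) * ((Nat.log 2 X : ℝ) + 4) := h1
      _ ≤ (2 * (X : ℝ) ^ (1 / 3 : ℝ)) * ((4 + 1 / (1 / 6 * Real.log 2)) * (X : ℝ) ^ (1 / 6 : ℝ)) := by
        refine mul_le_mul (by linarith) ?_ (by positivity) (by positivity)
        rw [add_mul]
        linarith
      _ = 2 * (4 + 1 / (1 / 6 * Real.log 2)) * ((X : ℝ) ^ (1 / 3 : ℝ) * (X : ℝ) ^ (1 / 6 : ℝ)) := by ring
      _ = _ := by
        rw [← Real.rpow_add hX0]
        norm_num

/-- The perfect powers. -/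
theorem pow_half : Half {n | ∃ a k : ℕ, 2 ≤ k ∧ n = a ^ k} := by
  refine (sq_half94.union cube_half94).mono ?_
  rintro n - ⟨a, k, hk, rfl⟩
  rcases Nat.lt_or_ge k 3 with h | h
  · left
    exact ⟨a, by rw [show k = 2 by omega]⟩
  · right
    exact ⟨a, k, h, rfl⟩

end PX
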